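import Mathlib

set_option autoImplicit false

/-! Divisors of almost all integers, orders modulo almost all primes, exponents `w` with `m ∣ a ^ w - 1`: the statements
(helper73). -/

namespace Pool.Agent.Zk73.OR

open Finset Classical

/-- **Divisors of almost all integers.** For all `m ≤ N` but `C N ^ (1 - η)`: `Q w` holds for EVERY divisor `w ≥ m ^ δ` of
every positive integer within `m ^ κ` of `m`. -/
def OnDivisors (δ κ : ℝ) (Q : ℕ → Prop) : Prop :=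
  ∃ C η : ℝ, 0 < η ∧ ∀ N : ℕ, 1 ≤ N →
    ({m : ℕ | 1 ≤ m ∧ m ≤ N ∧ ¬ ∀ n w : ℕ, 1 ≤ n → |(n : ℝ) - m| ≤ (m : ℝ) ^ κ → (m : ℝ) ^ δ ≤ w → w ∣ n →
      Q w}.ncard : ℝ) ≤ C * (N : ℝ) ^ (1 - η)

/-- **Orders modulo almost all primes.** For all primes `p ≤ N` but `C N ^ (1 - η)`: `Q w` holds for `w` the multiplicative
order modulo `p` of EVERY integer `a` with `2 ≤ |a| ≤ p ^ c`. -/
def OnOrders (c : ℝ) (Q : ℕ → Prop) : Prop :=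
  ∃ C η : ℝ, 0 < η ∧ ∀ N : ℕ, 1 ≤ N →
    ({p : ℕ | p.Prime ∧ p ≤ N ∧ ¬ ∀ a : ℤ, 2 ≤ |a| → (|a| : ℝ) ≤ (p : ℝ) ^ c → Q (orderOf (a : ZMod p))}.ncard : ℝ) ≤
      C * (N : ℝ) ^ (1 - η)

/-- `w` and `p - 1` have a common divisor of size at least `p ^ (1 - l)`, for every prime `p > y` which divides `m`
exactly once -/
def Shares (l y : ℝ) (m w : ℕ) : Prop :=
  ∀ p : ℕ, p.Prime → y < p → p ∣ m → ¬ p ^ 2 ∣ m → (p : ℝ) ^ (1 - l) ≤ (Nat.gcd w (p - 1) : ℝ)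

/-- **Numbers which share large divisors with `p - 1`, `p ∣ m`, for almost all `m`.** For all `m ≤ N` but `N / (log N) ^ A`:
`Q w` holds for EVERY `w ≤ N ^ B` with `gcd (w, p - 1) ≥ p ^ (1 - l)` for all primes `p > exp (√(log N))` dividing `m`
exactly once. -/
def OnShared (B l : ℝ) (Q : ℕ → Prop) : Prop :=
  ∀ A : ℕ, ∃ N₀ : ℕ, ∀ N : ℕ, N₀ ≤ N →
    ({m : ℕ | 1 ≤ m ∧ m ≤ N ∧ ¬ ∀ w : ℕ, 1 ≤ w → (w : ℝ) ≤ (N : ℝ) ^ B →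
      Shares l (Real.exp √(Real.log N)) m w → Q w}.ncard : ℝ) ≤ N / Real.log N ^ A

/-- **Exponents.** There is `c > 0` such that for all `m ≤ N` but `N / (log N) ^ A`: `Q w` holds for EVERY `w ≤ N ^ B` for
which `m` divides `a ^ w - 1` for some integer `a`, `2 ≤ |a| ≤ exp (c √(log N))`. -/
def OnExponents (B : ℝ) (Q : ℕ → Prop) : Prop :=
  ∃ c : ℝ, 0 < c ∧ ∀ A : ℕ, ∃ N₀ : ℕ, ∀ N : ℕ, N₀ ≤ N →
    ({m : ℕ | 1 ≤ m ∧ m ≤ N ∧ ¬ ∀ (a : ℤ) (w : ℕ), 2 ≤ |a| → (|a| : ℝ) ≤ Real.exp (c * √(Real.log N)) → 1 ≤ w →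
      (w : ℝ) ≤ (N : ℝ) ^ B → (m : ℤ) ∣ a ^ w - 1 → Q w}.ncard : ℝ) ≤ N / Real.log N ^ A

/-- the four statements for sets with a power saving, `θ` the exponent of the set -/
structure Everywhere (θ : ℝ) (Q : ℕ → Prop) : Prop where
  divisors : θ < 1 → ∀ δ κ : ℝ, 0 < δ → δ ≤ 1 → 0 ≤ κ → κ < δ * (1 - θ) → OnDivisors δ κ Q
  orders : θ < 1 → ∀ c : ℝ, 0 ≤ c → c < 1 → OnOrders c Q
  shared : ∀ B l : ℝ, 0 ≤ B → 0 ≤ l → B * θ + l < 1 → OnShared B l Q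
  exponents : ∀ B : ℝ, 0 ≤ B → B * θ < 1 / 2 → OnExponents B Q

end Pool.Agent.Zk73.OR
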