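import Mathlib
import Pool.Agent.Zk73.OR.Defs

set_option autoImplicit false

/-! Sparse sets of natural numbers: sums of reciprocals, divisors of almost all integers, orders modulo
almost all primes (helper73). -/

namespace Pool.Agent.Zk73.OR

open Finset Classical

/-- the sum of the reciprocals of the elements `≥ Y` of a sparse set -/
lemma sum_inv {θ C₀ : ℝ} (hθ1 : θ ≤ 1) (W : Set ℕ)
    (hW : ∀ X : ℕ, 1 ≤ X → (((Icc 1 X).filter (fun w => w ∈ W)).card : ℝ) ≤ C₀ * (X : ℝ) ^ θ)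
    {Y : ℝ} (hY : 1 ≤ Y) (X : ℕ) :
    ∑ w ∈ (Icc 1 X).filter (fun w => w ∈ W ∧ Y ≤ w), (1 : ℝ) / w ≤
      2 * C₀ * (Nat.log 2 X + 1) * Y ^ (θ - 1) := by
  have hC0 : 0 ≤ C₀ := by
    have := hW 1 le_rfl
    rw [Nat.cast_one, Real.one_rpow, mul_one] at this
    exact le_trans (Nat.cast_nonneg _) this
  have hY0 : 0 < Y := by linarith
  have hmaps : ∀ w ∈ (Icc 1 X).filter (fun w => w ∈ W ∧ Y ≤ w), Nat.log 2 w ∈ range (Nat.log 2 X + 1) := by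
    intro w hw
    rw [mem_filter, mem_Icc] at hw
    rw [mem_range]
    exact Nat.lt_succ_of_le (Nat.log_mono_right hw.1.2)
  rw [← sum_fiberwise_of_maps_to hmaps]
  have key : ∀ j ∈ range (Nat.log 2 X + 1),
      ∑ w ∈ ((Icc 1 X).filter (fun w => w ∈ W ∧ Y ≤ w)).filter (fun w => Nat.log 2 w = j), (1 : ℝ) / w ≤
        2 * C₀ * Y ^ (θ - 1) := by
    intro j _
    rcases (((Icc 1 X).filter (fun w => w ∈ W ∧ Y ≤ w)).filter (fun w => Nat.log 2 w = j)).eq_empty_or_nonempty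
      with he | ⟨w0, hw0⟩
    · rw [he, sum_empty]
      positivity
    · have h2 : Y ≤ (2 : ℝ) ^ (j + 1) := by
        rw [mem_filter, mem_filter, mem_Icc] at hw0
        have h1 := Nat.lt_pow_succ_log_self (by norm_num : 1 < 2) w0
        rw [hw0.2] at h1
        have h3 : (w0 : ℝ) ≤ (2 : ℝ) ^ (j + 1) := by exact_mod_cast h1.le
        linarith [hw0.1.2.2]
      have hsub : ((Icc 1 X).filter (fun w => w ∈ W ∧ Y ≤ w)).filter (fun w => Nat.log 2 w = j) ⊆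
          (Icc 1 (2 ^ (j + 1))).filter (fun w => w ∈ W) := by
        intro w hw
        rw [mem_filter, mem_filter, mem_Icc] at hw
        rw [mem_filter, mem_Icc]
        have h1 := Nat.lt_pow_succ_log_self (by norm_num : 1 < 2) w
        rw [hw.2] at h1
        exact ⟨⟨hw.1.1.1, h1.le⟩, hw.1.2.1⟩
      have hterm : ∀ w ∈ ((Icc 1 X).filter (fun w => w ∈ W ∧ Y ≤ w)).filter (fun w => Nat.log 2 w = j),
          (1 : ℝ) / w ≤ 1 / 2 ^ j := by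
        intro w hw
        rw [mem_filter, mem_filter, mem_Icc] at hw
        have h1 := Nat.pow_log_le_self 2 (by omega : w ≠ 0)
        rw [hw.2] at h1
        apply one_div_le_one_div_of_le (by positivity)
        exact_mod_cast h1
      have hcard := (Nat.cast_le (α := ℝ)).2 (card_le_card hsub)
      have hWj := hW (2 ^ (j + 1)) Nat.one_le_two_pow
      push_cast at hWj
      calc _ ≤ ∑ w ∈ ((Icc 1 X).filter (fun w => w ∈ W ∧ Y ≤ w)).filter (fun w => Nat.log 2 w = j),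
              (1 : ℝ) / 2 ^ j := sum_le_sum hterm
        _ = ((((Icc 1 X).filter (fun w => w ∈ W ∧ Y ≤ w)).filter (fun w => Nat.log 2 w = j)).card : ℝ) *
              (1 / 2 ^ j) := by rw [sum_const, nsmul_eq_mul]
        _ ≤ (C₀ * ((2 : ℝ) ^ (j + 1)) ^ θ) * (1 / 2 ^ j) :=
            mul_le_mul_of_nonneg_right (hcard.trans hWj) (by positivity)
        _ = 2 * C₀ * ((2 : ℝ) ^ (j + 1)) ^ (θ - 1) := by
            rw [Real.rpow_sub_one (by positivity)]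
            field_simp
            ring
        _ ≤ 2 * C₀ * Y ^ (θ - 1) := by
            apply mul_le_mul_of_nonneg_left _ (by positivity)
            exact Real.rpow_le_rpow_of_nonpos hY0 h2 (by linarith)
  refine (sum_le_sum key).trans (le_of_eq ?_)
  rw [sum_const, card_range, nsmul_eq_mul]
  push_cast
  ring

/-- the number of binary digits is small -/
lemma log_small {ε : ℝ} (hε : 0 < ε) : ∃ C : ℝ, 0 ≤ C ∧ ∀ X : ℕ, 1 ≤ X → (Nat.log 2 X : ℝ) + 1 ≤ C * (X : ℝ) ^ ε := by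
  refine ⟨1 / (ε * Real.log 2) + 1, by positivity, fun X hX => ?_⟩
  have hX1 : (1 : ℝ) ≤ X := by exact_mod_cast hX
  have hl2 : 0 < Real.log 2 := Real.log_pos (by norm_num)
  have h1 : (Nat.log 2 X : ℝ) * Real.log 2 ≤ Real.log X := by
    have h2 := Nat.pow_log_le_self 2 (by omega : X ≠ 0)
    have h3 : ((2 : ℝ)) ^ (Nat.log 2 X) ≤ X := by exact_mod_cast h2
    have h4 := Real.log_le_log (by positivity) h3
    rwa [Real.log_pow] at h4
  have h2 := Real.log_le_rpow_div (by linarith : (0 : ℝ) ≤ X) hε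
  have h3 : (1 : ℝ) ≤ (X : ℝ) ^ ε := Real.one_le_rpow hX1 hε.le
  have h4 : (Nat.log 2 X : ℝ) ≤ 1 / (ε * Real.log 2) * (X : ℝ) ^ ε := by
    have e1 : (Nat.log 2 X : ℝ) ≤ (X : ℝ) ^ ε / ε / Real.log 2 := by
      rw [le_div_iff₀ hl2]
      linarith
    calc (Nat.log 2 X : ℝ) ≤ (X : ℝ) ^ ε / ε / Real.log 2 := e1
      _ = _ := by field_simp
  linarith

theorem OnDivisors.mono {δ κ : ℝ} {Q Q' : ℕ → Prop} (h : OnDivisors δ κ Q) (hQ : ∀ w : ℕ, 1 ≤ w → Q w → Q' w) :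
    OnDivisors δ κ Q' := by
  obtain ⟨C, η, hη, h⟩ := h
  refine ⟨C, η, hη, fun N hN => le_trans ?_ (h N hN)⟩
  have hfin : {m : ℕ | 1 ≤ m ∧ m ≤ N ∧ ¬ ∀ n w : ℕ, 1 ≤ n → |(n : ℝ) - m| ≤ (m : ℝ) ^ κ → (m : ℝ) ^ δ ≤ w → w ∣ n →
      Q w}.Finite := (Set.finite_Icc 1 N).subset (fun m hm => ⟨hm.1, hm.2.1⟩)
  apply Nat.cast_le.2
  apply Set.ncard_le_ncard _ hfin
  rintro m ⟨h1, h2, h3⟩
  exact ⟨h1, h2, fun h4 => h3 fun n w hn hnm hw hd => hQ w (Nat.pos_of_dvd_of_pos hd hn) (h4 n w hn hnm hw hd)⟩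

/-- the integers `m ≤ M` near the multiples of `w` -/
lemma near_multiples {w : ℕ} (hw : 1 ≤ w) {M κ : ℝ} (hM : 1 ≤ M) (hκ0 : 0 ≤ κ) (hκ1 : κ ≤ 1) (F : Finset ℕ)
    (hF : ∀ m ∈ F, 1 ≤ m ∧ (m : ℝ) ≤ M ∧ ∃ n : ℕ, 1 ≤ n ∧ w ∣ n ∧ |(n : ℝ) - m| ≤ (m : ℝ) ^ κ) :
    (F.card : ℝ) ≤ 6 * M ^ (1 + κ) / w := by
  obtain ⟨R, hR⟩ : ∃ R : ℕ, R = ⌊M ^ κ⌋₊ := ⟨_, rfl⟩
  have hMκ : 1 ≤ M ^ κ := Real.one_le_rpow hM hκ0
  have hRle : (R : ℝ) ≤ M ^ κ := by rw [hR]; exact Nat.floor_le (by linarith)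
  have hMκM : M ^ κ ≤ M := by
    calc M ^ κ ≤ M ^ (1 : ℝ) := Real.rpow_le_rpow_of_exponent_le hM hκ1
      _ = M := Real.rpow_one M
  have hw0 : (0 : ℝ) < w := by exact_mod_cast hw
  have hsub : F ⊆ (Icc 1 ⌊2 * M / w⌋₊).biUnion (fun k => Icc (k * w - R) (k * w + R)) := by
    intro m hm
    obtain ⟨h1, h2, n, hn, ⟨k, rfl⟩, h3⟩ := hF m hm
    have hm1 : (1 : ℝ) ≤ m := by exact_mod_cast h1
    have h4 : (m : ℝ) ^ κ ≤ M ^ κ := Real.rpow_le_rpow (by linarith) h2 hκ0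
    have h5 := abs_le.1 (h3.trans h4)
    push_cast at h5
    rw [mem_biUnion]
    refine ⟨k, ?_, ?_⟩
    · rw [mem_Icc]
      constructor
      · rcases Nat.eq_zero_or_pos k with h | h
        · subst h
          omega
        · exact h
      · apply Nat.le_floor
        rw [le_div_iff₀ hw0]
        nlinarith [h5.2]
    · rw [mem_Icc]
      constructor
      · have : ((k * w : ℕ) : ℝ) - m ≤ M ^ κ := by push_cast; nlinarith [h5.2]
        have h6 : k * w - m ≤ R := by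
          rw [hR]
          apply Nat.le_floor
          rcases le_total m (k * w) with h | h
          · rw [Nat.cast_sub h]
            exact this
          · rw [Nat.sub_eq_zero_of_le h, Nat.cast_zero]
            linarith
        omega
      · have : (m : ℝ) - ((k * w : ℕ) : ℝ) ≤ M ^ κ := by push_cast; nlinarith [h5.1]
        have h6 : m - k * w ≤ R := by
          rw [hR]
          apply Nat.le_floor
          rcases le_total (k * w) m with h | h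
          · rw [Nat.cast_sub h]
            exact this
          · rw [Nat.sub_eq_zero_of_le h, Nat.cast_zero]
            linarith
        omega
  have h1 : F.card ≤ ∑ k ∈ Icc 1 ⌊2 * M / w⌋₊, (2 * R + 1) := by
    refine (card_le_card hsub).trans (card_biUnion_le.trans (sum_le_sum fun k _ => ?_))
    rw [Nat.card_Icc]
    omega
  rw [sum_const, Nat.card_Icc, Nat.add_sub_cancel, smul_eq_mul] at h1
  have h2 : (F.card : ℝ) ≤ (⌊2 * M / w⌋₊ : ℝ) * (2 * R + 1) := by exact_mod_cast h1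
  have h3 : (⌊2 * M / w⌋₊ : ℝ) ≤ 2 * M / w := Nat.floor_le (by positivity)
  calc (F.card : ℝ) ≤ (⌊2 * M / w⌋₊ : ℝ) * (2 * R + 1) := h2
    _ ≤ (2 * M / w) * (3 * M ^ κ) := by
        apply mul_le_mul h3 (by linarith) (by positivity) (by positivity)
    _ = 6 * M ^ (1 + κ) / w := by
        rw [Real.rpow_add (by linarith), Real.rpow_one]
        ring

/-- **Divisors avoid sparse sets.** -/
theorem divisors_out {θ δ κ : ℝ} (hθ0 : 0 ≤ θ) (hθ1 : θ < 1) (hδ : 0 < δ) (hδ1 : δ ≤ 1) (hκ0 : 0 ≤ κ)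
    (hκ : κ < δ * (1 - θ)) (C₀ : ℝ) (W : Set ℕ)
    (hW : ∀ X : ℕ, 1 ≤ X → (((Icc 1 X).filter (fun w => w ∈ W)).card : ℝ) ≤ C₀ * (X : ℝ) ^ θ) :
    OnDivisors δ κ (fun w => w ∉ W) := by
  have hC0 : 0 ≤ C₀ := by
    have := hW 1 le_rfl
    rw [Nat.cast_one, Real.one_rpow, mul_one] at this
    exact le_trans (Nat.cast_nonneg _) this
  have hκ1 : κ ≤ 1 := by nlinarith
  obtain ⟨η, hη⟩ : ∃ η : ℝ, η = (δ * (1 - θ) - κ) / 2 := ⟨_, rfl⟩
  have hη0 : 0 < η := by rw [hη]; linarith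
  obtain ⟨CL, hCL0, hCL⟩ := log_small hη0
  refine ⟨12 * C₀ * (CL * 2 ^ η) + 6 * C₀, η, hη0, fun N hN => ?_⟩
  have hN1 : (1 : ℝ) ≤ N := by exact_mod_cast hN
  have hN0 : (0 : ℝ) < N := by linarith
  obtain ⟨Y, hY⟩ : ∃ Y : ℝ, Y = (N : ℝ) ^ δ := ⟨_, rfl⟩
  have hY1 : 1 ≤ Y := by rw [hY]; exact Real.one_le_rpow hN1 hδ.le
  obtain ⟨V, hV⟩ : ∃ V, V = (Icc 1 (2 * N)).filter (fun w => w ∈ W) := ⟨_, rfl⟩
  obtain ⟨T, hT⟩ : ∃ T : ℕ → Finset ℕ, T = fun w : ℕ => (Icc (1 : ℕ) N).filter (fun m : ℕ => ∃ n : ℕ, 1 ≤ n ∧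
    |(n : ℝ) - (m : ℝ)| ≤ (m : ℝ) ^ κ ∧ (m : ℝ) ^ δ ≤ (w : ℝ) ∧ w ∣ n) := ⟨_, rfl⟩
  have hcov : {m : ℕ | 1 ≤ m ∧ m ≤ N ∧ ¬ ∀ n w : ℕ, 1 ≤ n → |(n : ℝ) - m| ≤ (m : ℝ) ^ κ → (m : ℝ) ^ δ ≤ w → w ∣ n →
      w ∉ W} ⊆ ((V.biUnion T : Finset ℕ) : Set ℕ) := by
    rintro m ⟨h1, h2, h3⟩
    push Not at h3
    obtain ⟨n, w, hn, hnm, hwm, hd, hwW⟩ := h3
    rw [mem_coe, mem_biUnion]
    have hm1 : (1 : ℝ) ≤ m := by exact_mod_cast h1
    have hmN : (m : ℝ) ≤ N := by exact_mod_cast h2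
    refine ⟨w, ?_, ?_⟩
    · rw [hV, mem_filter, mem_Icc]
      refine ⟨⟨Nat.pos_of_dvd_of_pos hd hn, ?_⟩, hwW⟩
      have h4 : (m : ℝ) ^ κ ≤ m := by
        calc (m : ℝ) ^ κ ≤ (m : ℝ) ^ (1 : ℝ) := Real.rpow_le_rpow_of_exponent_le hm1 hκ1
          _ = m := Real.rpow_one _
      have h5 := (abs_le.1 hnm).2
      have h6 : (n : ℝ) ≤ ((2 * N : ℕ) : ℝ) := by push_cast; linarith
      exact (Nat.le_of_dvd hn hd).trans (by exact_mod_cast h6)
    · rw [hT, mem_filter, mem_Icc]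
      exact ⟨⟨h1, h2⟩, n, hn, hnm, hwm, hd⟩
  -- the bound for one w
  have hTl : ∀ w ∈ V, Y ≤ w → ((T w).card : ℝ) ≤ 6 * (N : ℝ) ^ (1 + κ) * (1 / w) := by
    intro w hw _
    rw [hV, mem_filter, mem_Icc] at hw
    have h1 := near_multiples hw.1.1 hN1 hκ0 hκ1 (T w) (fun m hm => by
      rw [hT, mem_filter, mem_Icc] at hm
      obtain ⟨⟨a1, a2⟩, n, a3, a4, _, a6⟩ := hm
      exact ⟨a1, by exact_mod_cast a2, n, a3, a6, a4⟩)
    calc _ ≤ _ := h1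
      _ = _ := by ring
  have hTs : ∀ w ∈ V, ¬ Y ≤ w → ((T w).card : ℝ) ≤ 6 * (N : ℝ) ^ (1 + κ - δ) := by
    intro w hw hwY
    rw [hV, mem_filter, mem_Icc] at hw
    have hw1 : (1 : ℝ) ≤ w := by exact_mod_cast hw.1.1
    have hM : 1 ≤ (w : ℝ) ^ (1 / δ) := Real.one_le_rpow hw1 (by positivity)
    have h1 := near_multiples hw.1.1 hM hκ0 hκ1 (T w) (fun m hm => by
      rw [hT, mem_filter, mem_Icc] at hm
      obtain ⟨⟨a1, a2⟩, n, a3, a4, a5, a6⟩ := hm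
      refine ⟨a1, ?_, n, a3, a6, a4⟩
      have h2 := Real.rpow_le_rpow (by positivity) a5 (by positivity : 0 ≤ 1 / δ)
      rw [← Real.rpow_mul (by positivity), mul_one_div_cancel hδ.ne', Real.rpow_one] at h2
      exact h2)
    have hwY' : (w : ℝ) ≤ Y := by linarith
    have e : (1 + κ) / δ - 1 ≥ 0 := by
      have : 1 ≤ (1 + κ) / δ := by
        rw [le_div_iff₀ hδ]
        linarith
      linarith
    calc _ ≤ _ := h1
      _ = 6 * (w : ℝ) ^ ((1 + κ) / δ - 1) := by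
        rw [← Real.rpow_mul (by positivity), Real.rpow_sub_one (by positivity)]
        have : 1 / δ * (1 + κ) = (1 + κ) / δ := by ring
        rw [this]
        ring
      _ ≤ 6 * Y ^ ((1 + κ) / δ - 1) := by
        apply mul_le_mul_of_nonneg_left _ (by norm_num)
        exact Real.rpow_le_rpow (by linarith) hwY' e
      _ = 6 * (N : ℝ) ^ (1 + κ - δ) := by
        rw [hY, ← Real.rpow_mul (by positivity)]
        congr 2
        field_simp
  have hsum1 : ∑ w ∈ V.filter (fun w : ℕ => Y ≤ w), ((T w).card : ℝ) ≤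
      12 * C₀ * (CL * 2 ^ η) * (N : ℝ) ^ (1 - η) := by
    have e1 : V.filter (fun w : ℕ => Y ≤ w) = (Icc 1 (2 * N)).filter (fun w => w ∈ W ∧ Y ≤ w) := by
      rw [hV, filter_filter]
    have h1 : ∑ w ∈ V.filter (fun w : ℕ => Y ≤ w), ((T w).card : ℝ) ≤
        ∑ w ∈ V.filter (fun w : ℕ => Y ≤ w), 6 * (N : ℝ) ^ (1 + κ) * (1 / w) := by
      apply sum_le_sum
      intro w hw
      rw [mem_filter] at hw
      exact hTl w hw.1 hw.2
    refine h1.trans ?_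
    rw [← mul_sum, e1]
    have h2 := sum_inv hθ1.le W hW hY1 (2 * N)
    have h3 := hCL (2 * N) (by omega)
    push_cast at h3
    rw [Real.mul_rpow (by norm_num) (by positivity)] at h3
    have hY0 : 0 < Y := by linarith
    calc 6 * (N : ℝ) ^ (1 + κ) * ∑ w ∈ (Icc 1 (2 * N)).filter (fun w => w ∈ W ∧ Y ≤ w), (1 : ℝ) / w
        ≤ 6 * (N : ℝ) ^ (1 + κ) * (2 * C₀ * (CL * (2 ^ η * (N : ℝ) ^ η)) * Y ^ (θ - 1)) := by
          apply mul_le_mul_of_nonneg_left _ (by positivity)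
          refine h2.trans ?_
          apply mul_le_mul_of_nonneg_right _ (by positivity)
          exact mul_le_mul_of_nonneg_left h3 (by positivity)
      _ = 12 * C₀ * (CL * 2 ^ η) * ((N : ℝ) ^ (1 + κ) * (N : ℝ) ^ η * (N : ℝ) ^ (δ * (θ - 1))) := by
          rw [hY, ← Real.rpow_mul hN0.le]
          ring
      _ = 12 * C₀ * (CL * 2 ^ η) * (N : ℝ) ^ (1 - η) := by
          rw [← Real.rpow_add hN0, ← Real.rpow_add hN0]
          congr 2
          rw [hη]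
          ring
  have hsum2 : ∑ w ∈ V.filter (fun w : ℕ => ¬ Y ≤ w), ((T w).card : ℝ) ≤ 6 * C₀ * (N : ℝ) ^ (1 - η) := by
    have h1 : ∑ w ∈ V.filter (fun w : ℕ => ¬ Y ≤ w), ((T w).card : ℝ) ≤
        ∑ w ∈ V.filter (fun w : ℕ => ¬ Y ≤ w), 6 * (N : ℝ) ^ (1 + κ - δ) := by
      apply sum_le_sum
      intro w hw
      rw [mem_filter] at hw
      exact hTs w hw.1 hw.2
    refine h1.trans ?_
    rw [sum_const, nsmul_eq_mul]
    have hsub : V.filter (fun w : ℕ => ¬ Y ≤ w) ⊆ (Icc 1 ⌊Y⌋₊).filter (fun w => w ∈ W) := by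
      intro w hw
      rw [mem_filter, hV, mem_filter, mem_Icc] at hw
      rw [mem_filter, mem_Icc]
      refine ⟨⟨hw.1.1.1, Nat.le_floor (not_le.1 hw.2).le⟩, hw.1.2⟩
    have hfl : 1 ≤ ⌊Y⌋₊ := Nat.le_floor (by exact_mod_cast hY1)
    have h2 : ((V.filter (fun w : ℕ => ¬ Y ≤ w)).card : ℝ) ≤ C₀ * (N : ℝ) ^ (δ * θ) := by
      refine ((Nat.cast_le (α := ℝ)).2 (card_le_card hsub)).trans ((hW _ hfl).trans ?_)
      apply mul_le_mul_of_nonneg_left _ hC0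
      calc ((⌊Y⌋₊ : ℕ) : ℝ) ^ θ ≤ Y ^ θ :=
            Real.rpow_le_rpow (Nat.cast_nonneg _) (Nat.floor_le (by linarith)) hθ0
        _ = (N : ℝ) ^ (δ * θ) := by rw [hY, ← Real.rpow_mul hN0.le]
    calc ((V.filter (fun w : ℕ => ¬ Y ≤ w)).card : ℝ) * (6 * (N : ℝ) ^ (1 + κ - δ))
        ≤ (C₀ * (N : ℝ) ^ (δ * θ)) * (6 * (N : ℝ) ^ (1 + κ - δ)) :=
          mul_le_mul_of_nonneg_right h2 (by positivity)
      _ = 6 * C₀ * ((N : ℝ) ^ (δ * θ) * (N : ℝ) ^ (1 + κ - δ)) := by ring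
      _ = 6 * C₀ * (N : ℝ) ^ (δ * θ + (1 + κ - δ)) := by rw [← Real.rpow_add hN0]
      _ ≤ 6 * C₀ * (N : ℝ) ^ (1 - η) := by
          apply mul_le_mul_of_nonneg_left _ (by positivity)
          apply Real.rpow_le_rpow_of_exponent_le hN1
          rw [hη]
          nlinarith
  have h1 : (({m : ℕ | 1 ≤ m ∧ m ≤ N ∧ ¬ ∀ n w : ℕ, 1 ≤ n → |(n : ℝ) - m| ≤ (m : ℝ) ^ κ → (m : ℝ) ^ δ ≤ w → w ∣ n →
      w ∉ W}.ncard : ℕ) : ℝ) ≤ ∑ w ∈ V, ((T w).card : ℝ) := by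
    have h2 := Set.ncard_le_ncard hcov (finite_toSet _)
    rw [Set.ncard_coe_finset] at h2
    exact_mod_cast h2.trans card_biUnion_le
  rw [← sum_filter_add_sum_filter_not V (fun w : ℕ => Y ≤ w)] at h1
  calc _ ≤ _ := h1
    _ ≤ 12 * C₀ * (CL * 2 ^ η) * (N : ℝ) ^ (1 - η) + 6 * C₀ * (N : ℝ) ^ (1 - η) := add_le_add hsum1 hsum2
    _ = _ := by ring

end Pool.Agent.Zk73.OR
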