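import Mathlib
import Pool.Agent.Zk73.OR.A

set_option autoImplicit false

/-! Orders modulo almost all primes avoid sparse sets (helper73). -/

namespace Pool.Agent.Zk73.OR

open Finset Classical

lemma card_pf {n : ℕ} (hn : n ≠ 0) : n.primeFactors.card ≤ Nat.log 2 n := by
  apply Nat.le_log_of_pow_le (by norm_num)
  have h1 : 2 ^ n.primeFactors.card ≤ ∏ p ∈ n.primeFactors, p :=
    Finset.pow_card_le_prod _ _ _ (fun p hp => (Nat.prime_of_mem_primeFactors hp).two_le)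
  exact h1.trans (Nat.le_of_dvd (Nat.pos_of_ne_zero hn) (Nat.prod_primeFactors_dvd n))

/-- few primes divide a number `a ^ k - 1` with small `a` and `k` -/
lemma small_exps {A K : ℕ} (F : Finset ℕ)
    (hF : ∀ p ∈ F, p.Prime ∧ ∃ a : ℤ, 2 ≤ |a| ∧ |a| ≤ A ∧ ∃ k : ℕ, 1 ≤ k ∧ k ≤ K ∧ (p : ℤ) ∣ a ^ k - 1) :
    F.card ≤ (2 * A + 1) * K * (1 + K * (Nat.log 2 A + 1)) := by
  have hne : ∀ a : ℤ, 2 ≤ |a| → ∀ k : ℕ, 1 ≤ k → a ^ k - 1 ≠ 0 := by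
    intro a ha k hk h
    have h1 : |a| ^ k = 1 := by
      rw [← abs_pow, show a ^ k = 1 by linarith]
      simp
    have h2 : (2 : ℤ) ≤ |a| ^ k := by
      calc (2 : ℤ) ≤ |a| := ha
        _ = |a| ^ 1 := (pow_one _).symm
        _ ≤ |a| ^ k := pow_le_pow_right₀ (by linarith) hk
    omega
  have hsub : F ⊆ ((Icc (-(A : ℤ)) A).filter (fun a => 2 ≤ |a|)).biUnion (fun a => (Icc 1 K).biUnion
      (fun k => (a ^ k - 1).natAbs.primeFactors)) := by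
    intro p hp
    obtain ⟨h1, a, h2, h3, k, h4, h5, h6⟩ := hF p hp
    rw [mem_biUnion]
    refine ⟨a, ?_, ?_⟩
    · rw [mem_filter, mem_Icc]
      exact ⟨abs_le.1 h3, h2⟩
    · rw [mem_biUnion]
      refine ⟨k, by rw [mem_Icc]; exact ⟨h4, h5⟩, ?_⟩
      rw [Nat.mem_primeFactors]
      refine ⟨h1, Int.natCast_dvd.1 h6, ?_⟩
      rw [Int.natAbs_ne_zero]
      exact hne a h2 k h4
  refine (card_le_card hsub).trans (card_biUnion_le.trans ?_)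
  have h1 : ∀ a ∈ (Icc (-(A : ℤ)) A).filter (fun a => 2 ≤ |a|), ((Icc 1 K).biUnion
      (fun k => (a ^ k - 1).natAbs.primeFactors)).card ≤ K * (1 + K * (Nat.log 2 A + 1)) := by
    intro a ha
    rw [mem_filter, mem_Icc] at ha
    refine card_biUnion_le.trans ?_
    have h2 : ∀ k ∈ Icc 1 K, ((a ^ k - 1).natAbs.primeFactors).card ≤ 1 + K * (Nat.log 2 A + 1) := by
      intro k hk
      rw [mem_Icc] at hk
      refine (card_pf (Int.natAbs_ne_zero.2 (hne a ha.2 k hk.1))).trans ?_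
      have hA : A < 2 ^ (Nat.log 2 A + 1) := Nat.lt_pow_succ_log_self (by norm_num) A
      have haA : a.natAbs ≤ A := by
        have : |a| ≤ A := abs_le.2 ha.1
        rw [Int.abs_eq_natAbs] at this
        exact_mod_cast this
      have h3 : (a ^ k - 1).natAbs ≤ 2 ^ (1 + k * (Nat.log 2 A + 1)) := by
        have e1 : (a ^ k - 1).natAbs ≤ (a ^ k).natAbs + (1 : ℤ).natAbs := Int.natAbs_sub_le _ _
        rw [Int.natAbs_pow] at e1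
        have e2 : a.natAbs ^ k ≤ (2 ^ (Nat.log 2 A + 1)) ^ k := Nat.pow_le_pow_left (haA.trans hA.le) k
        rw [← pow_mul, mul_comm _ k] at e2
        have e3 : 1 ≤ 2 ^ (k * (Nat.log 2 A + 1)) := Nat.one_le_two_pow
        rw [pow_add, pow_one]
        simp only [Int.natAbs_one] at e1
        omega
      have h4 := Nat.log_mono_right (b := 2) h3
      rw [Nat.log_pow (by norm_num)] at h4
      refine h4.trans ?_
      have : k * (Nat.log 2 A + 1) ≤ K * (Nat.log 2 A + 1) := Nat.mul_le_mul_right _ hk.2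
      omega
    refine (sum_le_sum h2).trans ?_
    rw [sum_const, Nat.card_Icc, Nat.add_sub_cancel, smul_eq_mul]
  refine (sum_le_sum h1).trans ?_
  rw [sum_const, smul_eq_mul, mul_assoc]
  apply Nat.mul_le_mul_right
  refine (card_filter_le _ _).trans ?_
  rw [Int.card_Icc]
  omega

lemma ne_zero_of_small {p : ℕ} (hp : p.Prime) {a : ℤ} (ha : 2 ≤ |a|) {c : ℝ} (hc : c < 1)
    (hac : (|a| : ℝ) ≤ (p : ℝ) ^ c) : (a : ZMod p) ≠ 0 := by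
  rw [Ne, ZMod.intCast_zmod_eq_zero_iff_dvd]
  intro hd
  have ha0 : a ≠ 0 := by
    intro h
    rw [h] at ha
    norm_num at ha
  have h1 := Int.le_of_dvd (abs_pos.2 ha0) ((dvd_abs _ _).2 hd)
  have h2 : (p : ℝ) ≤ (|a| : ℝ) := by exact_mod_cast h1
  have h3 : (p : ℝ) ^ c < (p : ℝ) ^ (1 : ℝ) :=
    Real.rpow_lt_rpow_of_exponent_lt (by exact_mod_cast hp.one_lt) hc
  rw [Real.rpow_one] at h3
  linarith

lemma order_pos {p : ℕ} (hp : p.Prime) {a : ZMod p} (ha : a ≠ 0) : 1 ≤ orderOf a := by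
  have := Fact.mk hp
  have h := ZMod.orderOf_dvd_card_sub_one ha
  exact Nat.pos_of_dvd_of_pos h (by have := hp.two_le; omega)

theorem OnOrders.mono {c : ℝ} (hc : c < 1) {Q Q' : ℕ → Prop} (h : OnOrders c Q) (hQ : ∀ w : ℕ, 1 ≤ w → Q w → Q' w) :
    OnOrders c Q' := by
  obtain ⟨C, η, hη, h⟩ := h
  refine ⟨C, η, hη, fun N hN => le_trans ?_ (h N hN)⟩
  have hfin : {p : ℕ | p.Prime ∧ p ≤ N ∧ ¬ ∀ a : ℤ, 2 ≤ |a| → (|a| : ℝ) ≤ (p : ℝ) ^ c →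
      Q (orderOf (a : ZMod p))}.Finite := (Set.finite_Icc 0 N).subset (fun m hm => ⟨Nat.zero_le _, hm.2.1⟩)
  apply Nat.cast_le.2
  apply Set.ncard_le_ncard _ hfin
  rintro p ⟨h1, h2, h3⟩
  exact ⟨h1, h2, fun h4 => h3 fun a ha hac => hQ _ (order_pos h1 (ne_zero_of_small h1 ha hc hac)) (h4 a ha hac)⟩

/-- a power which is `1` modulo `p` -/
lemma dvd_of_order (p : ℕ) (a : ℤ) (k : ℕ) : (p : ℤ) ∣ a ^ k - 1 ↔ orderOf (a : ZMod p) ∣ k := by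
  rw [orderOf_dvd_iff_pow_eq_one, ← ZMod.intCast_zmod_eq_zero_iff_dvd]
  push_cast
  rw [sub_eq_zero]

/-- **Orders modulo primes avoid sparse sets.** -/
theorem orders_out {θ c : ℝ} (hθ0 : 0 ≤ θ) (hθ1 : θ < 1) (hc0 : 0 ≤ c) (hc : c < 1) (C₀ : ℝ) (W : Set ℕ)
    (hW : ∀ X : ℕ, 1 ≤ X → (((Icc 1 X).filter (fun w => w ∈ W)).card : ℝ) ≤ C₀ * (X : ℝ) ^ θ) :
    OnOrders c (fun w => w ∉ W) := by
  obtain ⟨δ, hδ⟩ : ∃ δ : ℝ, δ = (1 - c) / 4 := ⟨_, rfl⟩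
  have hδ0 : 0 < δ := by rw [hδ]; linarith
  obtain ⟨C₁, η₁, hη₁, h1⟩ := divisors_out (δ := δ) (κ := 0) hθ0 hθ1 hδ0 (by rw [hδ]; linarith) le_rfl
    (by have : 0 < 1 - θ := by linarith
        positivity) C₀ W hW
  obtain ⟨CL, hCL0, hCL⟩ := log_small hδ0
  refine ⟨|C₁| + 6 * CL, min η₁ δ, lt_min hη₁ hδ0, fun N hN => ?_⟩
  have hN1 : (1 : ℝ) ≤ N := by exact_mod_cast hN
  have hN0 : (0 : ℝ) < N := by linarith
  obtain ⟨A, hA⟩ : ∃ A : ℕ, A = ⌊(N : ℝ) ^ c⌋₊ := ⟨_, rfl⟩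
  obtain ⟨K, hK⟩ : ∃ K : ℕ, K = ⌊(N : ℝ) ^ δ⌋₊ := ⟨_, rfl⟩
  have hNc : 1 ≤ (N : ℝ) ^ c := Real.one_le_rpow hN1 hc0
  have hNδ : 1 ≤ (N : ℝ) ^ δ := Real.one_le_rpow hN1 hδ0.le
  have hAle : (A : ℝ) ≤ (N : ℝ) ^ c := by rw [hA]; exact Nat.floor_le (by linarith)
  have hKle : (K : ℝ) ≤ (N : ℝ) ^ δ := by rw [hK]; exact Nat.floor_le (by linarith)
  obtain ⟨F, hF⟩ : ∃ F : Finset ℕ, F = (Icc (1 : ℕ) N).filter (fun p : ℕ => p.Prime ∧ ∃ a : ℤ, 2 ≤ |a| ∧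
    |a| ≤ (A : ℤ) ∧ ∃ k : ℕ, 1 ≤ k ∧ k ≤ K ∧ (p : ℤ) ∣ a ^ k - 1) := ⟨_, rfl⟩
  have hFc := small_exps F (fun p hp => by
    rw [hF, mem_filter] at hp
    exact hp.2)
  have hfin1 : {m : ℕ | 1 ≤ m ∧ m ≤ N ∧ ¬ ∀ n w : ℕ, 1 ≤ n → |(n : ℝ) - m| ≤ (m : ℝ) ^ (0 : ℝ) → (m : ℝ) ^ δ ≤ w →
      w ∣ n → w ∉ W}.Finite := (Set.finite_Icc 1 N).subset (fun m hm => ⟨hm.1, hm.2.1⟩)
  have hcov : {p : ℕ | p.Prime ∧ p ≤ N ∧ ¬ ∀ a : ℤ, 2 ≤ |a| → (|a| : ℝ) ≤ (p : ℝ) ^ c →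
      orderOf (a : ZMod p) ∉ W} ⊆ {m : ℕ | 1 ≤ m ∧ m ≤ N ∧ ¬ ∀ n w : ℕ, 1 ≤ n → |(n : ℝ) - m| ≤ (m : ℝ) ^ (0 : ℝ) →
      (m : ℝ) ^ δ ≤ w → w ∣ n → w ∉ W} ∪ (F : Set ℕ) := by
    rintro p ⟨h1, h2, h3⟩
    push Not at h3
    obtain ⟨a, ha, hac, haW⟩ := h3
    have := Fact.mk h1
    have ha0 := ne_zero_of_small h1 ha hc hac
    have hd := ZMod.orderOf_dvd_card_sub_one ha0
    have hpos := order_pos h1 ha0
    have hpN : (p : ℝ) ≤ N := by exact_mod_cast h2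
    by_cases hcase : (p : ℝ) ^ δ ≤ (orderOf (a : ZMod p) : ℝ)
    · left
      refine ⟨h1.pos, h2, fun h => h (p - 1) (orderOf (a : ZMod p)) (by have := h1.two_le; omega) ?_ hcase hd haW⟩
      rw [Nat.cast_sub h1.one_le, Real.rpow_zero]
      simp
    · right
      rw [mem_coe, hF, mem_filter, mem_Icc]
      refine ⟨⟨h1.pos, h2⟩, h1, a, ha, ?_, orderOf (a : ZMod p), hpos, ?_, (dvd_of_order p a _).2 dvd_rfl⟩
      · have e1 : ((a.natAbs : ℕ) : ℝ) ≤ (N : ℝ) ^ c := by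
          have : ((a.natAbs : ℕ) : ℝ) = (|a| : ℝ) := by
            rw [Nat.cast_natAbs, Int.cast_abs]
          rw [this]
          exact hac.trans (Real.rpow_le_rpow (Nat.cast_nonneg _) hpN hc0)
        have e2 : a.natAbs ≤ A := by
          rw [hA]
          exact Nat.le_floor e1
        rw [Int.abs_eq_natAbs]
        exact_mod_cast e2
      · rw [hK]
        apply Nat.le_floor
        exact (not_le.1 hcase).le.trans (Real.rpow_le_rpow (Nat.cast_nonneg _) hpN hδ0.le)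
  have h2 : (({p : ℕ | p.Prime ∧ p ≤ N ∧ ¬ ∀ a : ℤ, 2 ≤ |a| → (|a| : ℝ) ≤ (p : ℝ) ^ c →
      orderOf (a : ZMod p) ∉ W}.ncard : ℕ) : ℝ) ≤
      ({m : ℕ | 1 ≤ m ∧ m ≤ N ∧ ¬ ∀ n w : ℕ, 1 ≤ n → |(n : ℝ) - m| ≤ (m : ℝ) ^ (0 : ℝ) →
        (m : ℝ) ^ δ ≤ w → w ∣ n → w ∉ W}.ncard : ℝ) + (F.card : ℝ) := by
    have h3 := Set.ncard_le_ncard hcov (hfin1.union (finite_toSet _))
    have h4 := h3.trans (Set.ncard_union_le _ _)
    rw [Set.ncard_coe_finset] at h4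
    exact_mod_cast h4
  have h3 : (F.card : ℝ) ≤ 6 * CL * (N : ℝ) ^ (1 - δ) := by
    have e0 : Nat.log 2 A ≤ Nat.log 2 N := by
      apply Nat.log_mono_right
      have : (A : ℝ) ≤ N := by
        calc (A : ℝ) ≤ (N : ℝ) ^ c := hAle
          _ ≤ (N : ℝ) ^ (1 : ℝ) := Real.rpow_le_rpow_of_exponent_le hN1 hc.le
          _ = N := Real.rpow_one _
      exact_mod_cast this
    have e1 : (F.card : ℝ) ≤ (2 * A + 1) * K * (1 + K * (Nat.log 2 N + 1)) := by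
      have e2 : F.card ≤ (2 * A + 1) * K * (1 + K * (Nat.log 2 N + 1)) := by
        refine hFc.trans ?_
        gcongr
      exact_mod_cast e2
    have e3 := hCL N hN
    have e4 : (1 : ℝ) ≤ Nat.log 2 N + 1 := by
      have : (0 : ℝ) ≤ Nat.log 2 N := Nat.cast_nonneg _
      linarith
    have e5 : (1 : ℝ) + K * (Nat.log 2 N + 1) ≤ 2 * (N : ℝ) ^ δ * (CL * (N : ℝ) ^ δ) := by
      have a1 : (1 : ℝ) ≤ (N : ℝ) ^ δ * (Nat.log 2 N + 1) := one_le_mul_of_one_le_of_one_le hNδ e4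
      have a2 : (K : ℝ) * (Nat.log 2 N + 1) ≤ (N : ℝ) ^ δ * (Nat.log 2 N + 1) :=
        mul_le_mul_of_nonneg_right hKle (by linarith)
      have a3 : (N : ℝ) ^ δ * (Nat.log 2 N + 1) ≤ (N : ℝ) ^ δ * (CL * (N : ℝ) ^ δ) :=
        mul_le_mul_of_nonneg_left e3 (by linarith)
      linarith
    calc (F.card : ℝ) ≤ (2 * A + 1) * K * (1 + K * (Nat.log 2 N + 1)) := e1
      _ ≤ (3 * (N : ℝ) ^ c) * (N : ℝ) ^ δ * (2 * (N : ℝ) ^ δ * (CL * (N : ℝ) ^ δ)) := by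
          apply mul_le_mul _ e5 (by positivity) (by positivity)
          apply mul_le_mul (by linarith) hKle (by positivity) (by positivity)
      _ = 6 * CL * ((N : ℝ) ^ c * (N : ℝ) ^ δ * (N : ℝ) ^ δ * (N : ℝ) ^ δ) := by ring
      _ = 6 * CL * (N : ℝ) ^ (1 - δ) := by
          rw [← Real.rpow_add hN0, ← Real.rpow_add hN0, ← Real.rpow_add hN0]
          congr 2
          rw [hδ]
          ring
  have h4 := h1 N hN
  have e1 : (N : ℝ) ^ (1 - η₁) ≤ (N : ℝ) ^ (1 - min η₁ δ) :=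
    Real.rpow_le_rpow_of_exponent_le hN1 (by linarith [min_le_left η₁ δ])
  have e2 : (N : ℝ) ^ (1 - δ) ≤ (N : ℝ) ^ (1 - min η₁ δ) :=
    Real.rpow_le_rpow_of_exponent_le hN1 (by linarith [min_le_right η₁ δ])
  have e3 : C₁ * (N : ℝ) ^ (1 - η₁) ≤ |C₁| * (N : ℝ) ^ (1 - min η₁ δ) :=
    (mul_le_mul_of_nonneg_right (le_abs_self _) (by positivity)).trans
      (mul_le_mul_of_nonneg_left e1 (abs_nonneg _))
  have e4 : 6 * CL * (N : ℝ) ^ (1 - δ) ≤ 6 * CL * (N : ℝ) ^ (1 - min η₁ δ) :=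
    mul_le_mul_of_nonneg_left e2 (by positivity)
  calc _ ≤ _ := h2
    _ ≤ |C₁| * (N : ℝ) ^ (1 - min η₁ δ) + 6 * CL * (N : ℝ) ^ (1 - min η₁ δ) := by linarith
    _ = _ := by ring

end Pool.Agent.Zk73.OR
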