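import Mathlib
import Pool.Agent.N790.CM.B
import Pool.Agent.Zk73.OR.B

set_option autoImplicit false

/-! Numbers `w` which have a large common divisor with `p - 1` for the prime factors `p` of `m` (helper73): few `m` for
a given `w`. -/

namespace Pool.Agent.Zk73.OR

open Finset Classical
open Pool.Agent.N733.TG

/-- the sum over the small subsets -/
lemma subsets_sum (x : ℕ → ℝ) (D : Finset ℕ) (hx : ∀ p ∈ D, 0 ≤ x p) (J : ℕ) :
    ∑ S ∈ D.powerset, (if S.card ≤ J then ∏ p ∈ S, x p else 0) ≤ (1 + ∑ p ∈ D, x p) ^ J := by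
  induction D using Finset.induction_on generalizing J with
  | empty => simp
  | insert q D hq ih =>
    have hx' : ∀ p ∈ D, 0 ≤ x p := fun p hp => hx p (mem_insert_of_mem hp)
    have hxq : 0 ≤ x q := hx q (mem_insert_self _ _)
    have hs : 0 ≤ ∑ p ∈ D, x p := sum_nonneg hx'
    rw [sum_powerset_insert hq, sum_insert hq]
    cases J with
    | zero =>
      have h1 := ih hx' 0
      have h2 : ∑ t ∈ D.powerset, (if (insert q t).card ≤ 0 then ∏ p ∈ insert q t, x p else 0) = 0 := by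
        apply sum_eq_zero
        intro t _
        rw [if_neg]
        rw [Nat.le_zero, card_eq_zero]
        exact insert_ne_empty _ _
      rw [h2, add_zero]
      simp
    | succ J =>
      have h1 := ih hx' (J + 1)
      have h2 : ∑ t ∈ D.powerset, (if (insert q t).card ≤ J + 1 then ∏ p ∈ insert q t, x p else 0) =
          x q * ∑ t ∈ D.powerset, (if t.card ≤ J then ∏ p ∈ t, x p else 0) := by
        rw [mul_sum]
        apply sum_congr rfl
        intro t ht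
        have hqt : q ∉ t := fun h => hq (mem_powerset.1 ht h)
        rw [card_insert_of_notMem hqt, prod_insert hqt]
        by_cases h : t.card ≤ J
        · rw [if_pos h, if_pos (by omega)]
        · rw [if_neg h, if_neg (by omega), mul_zero]
      have h3 := ih hx' J
      rw [h2]
      obtain ⟨A, hA⟩ : ∃ A : ℝ, A = 1 + ∑ p ∈ D, x p := ⟨_, rfl⟩
      have hA0 : 0 ≤ A := by rw [hA]; linarith
      rw [← hA] at h1 h3
      have e : 1 + (x q + ∑ p ∈ D, x p) = A + x q := by rw [hA]; ring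
      rw [e, pow_succ]
      have h4 : A ^ J ≤ (A + x q) ^ J := pow_le_pow_left₀ hA0 (by linarith) J
      calc _ ≤ A ^ (J + 1) + x q * A ^ J := add_le_add h1 (mul_le_mul_of_nonneg_left h3 hxq)
        _ = A ^ J * (A + x q) := by ring
        _ ≤ (A + x q) ^ J * (A + x q) := mul_le_mul_of_nonneg_right h4 (by linarith)

/-- the weighted number of the primes which share a large divisor with `w` -/
lemma primes_sum {l : ℝ} {N w : ℕ} (hN : 1 ≤ N) (hw : 1 ≤ w) (D : Finset ℕ)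
    (hD : ∀ p ∈ D, p.Prime ∧ p ≤ N ∧ (p : ℝ) ^ (1 - l) ≤ (Nat.gcd w (p - 1) : ℝ)) :
    ∑ p ∈ D, (p : ℝ) ^ (-l) ≤ w.divisors.card * (1 + Real.log N) := by
  have h1 : ∀ p ∈ D, (p : ℝ) ^ (-l) ≤ (1 : ℝ) / (((p - 1) / Nat.gcd w (p - 1) : ℕ) : ℝ) := by
    intro p hp
    obtain ⟨hpp, _, hpg⟩ := hD p hp
    have hp0 : (0 : ℝ) < p := by exact_mod_cast hpp.pos
    have h2 : 1 ≤ p - 1 := by have := hpp.two_le; omega
    have hg : 0 < Nat.gcd w (p - 1) := Nat.gcd_pos_of_pos_left _ hw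
    have hd : Nat.gcd w (p - 1) ∣ p - 1 := Nat.gcd_dvd_right _ _
    have hk : 0 < (p - 1) / Nat.gcd w (p - 1) := Nat.div_pos (Nat.le_of_dvd h2 hd) hg
    have hk0 : (0 : ℝ) < (((p - 1) / Nat.gcd w (p - 1) : ℕ) : ℝ) := by exact_mod_cast hk
    rw [Real.rpow_neg hp0.le, ← one_div]
    apply one_div_le_one_div_of_le hk0
    have h3 : ((((p - 1) / Nat.gcd w (p - 1) : ℕ) : ℝ)) * (Nat.gcd w (p - 1) : ℝ) ≤ p := by
      have : (p - 1) / Nat.gcd w (p - 1) * Nat.gcd w (p - 1) ≤ p := (Nat.div_mul_le_self _ _).trans (Nat.sub_le _ _)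
      exact_mod_cast this
    have h4 : (p : ℝ) = (p : ℝ) ^ l * (p : ℝ) ^ (1 - l) := by
      rw [← Real.rpow_add hp0]
      simp
    have h5 : 0 < (p : ℝ) ^ (1 - l) := Real.rpow_pos_of_pos hp0 _
    have h6 : ((((p - 1) / Nat.gcd w (p - 1) : ℕ) : ℝ)) * (p : ℝ) ^ (1 - l) ≤ (p : ℝ) ^ l * (p : ℝ) ^ (1 - l) := by
      rw [← h4]
      exact (mul_le_mul_of_nonneg_left hpg hk0.le).trans h3
    exact le_of_mul_le_mul_right h6 h5
  have h2 : ∑ p ∈ D, (1 : ℝ) / (((p - 1) / Nat.gcd w (p - 1) : ℕ) : ℝ) ≤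
      ∑ x ∈ w.divisors ×ˢ Icc 1 N, (1 : ℝ) / (x.2 : ℝ) := by
    have hinj : Set.InjOn (fun p : ℕ => (Nat.gcd w (p - 1), (p - 1) / Nat.gcd w (p - 1))) (D : Set ℕ) := by
      intro p hp p' hp' h
      simp only [Prod.mk.injEq] at h
      have a1 := Nat.mul_div_cancel' (Nat.gcd_dvd_right w (p - 1))
      have a2 := Nat.mul_div_cancel' (Nat.gcd_dvd_right w (p' - 1))
      rw [h.2, h.1] at a1
      have b1 := (hD p hp).1.two_le
      have b2 := (hD p' hp').1.two_le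
      rw [a2] at a1
      omega
    rw [← sum_image (f := fun x : ℕ × ℕ => (1 : ℝ) / (x.2 : ℝ)) hinj]
    apply sum_le_sum_of_subset_of_nonneg
    · intro x hx
      rw [mem_image] at hx
      obtain ⟨p, hp, rfl⟩ := hx
      obtain ⟨hpp, hpN, _⟩ := hD p hp
      have h2 : 1 ≤ p - 1 := by have := hpp.two_le; omega
      have hg : 0 < Nat.gcd w (p - 1) := Nat.gcd_pos_of_pos_left _ hw
      rw [mem_product, Nat.mem_divisors, mem_Icc]
      refine ⟨⟨Nat.gcd_dvd_left _ _, by omega⟩, Nat.div_pos (Nat.le_of_dvd h2 (Nat.gcd_dvd_right _ _)) hg, ?_⟩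
      exact (Nat.div_le_self _ _).trans ((Nat.sub_le _ _).trans hpN)
    · intro x _ _
      positivity
  have h3 : ∑ x ∈ w.divisors ×ˢ Icc 1 N, (1 : ℝ) / (x.2 : ℝ) = w.divisors.card * ∑ k ∈ Icc 1 N, (1 : ℝ) / k := by
    rw [sum_product]
    change ∑ _x ∈ w.divisors, ∑ y ∈ Icc 1 N, (1 : ℝ) / (y : ℝ) = _
    rw [sum_const, nsmul_eq_mul]
  have h4 : ∑ k ∈ Icc 1 N, (1 : ℝ) / k ≤ 1 + Real.log N := by
    have := harmonic_le_one_add_log N
    rw [harmonic_eq_sum_Icc] at this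
    push_cast at this
    simpa [one_div] using this
  calc ∑ p ∈ D, (p : ℝ) ^ (-l) ≤ _ := sum_le_sum h1
    _ ≤ _ := h2
    _ = _ := h3
    _ ≤ _ := mul_le_mul_of_nonneg_left h4 (Nat.cast_nonneg _)

/-- few squarefree `u` whose prime factors share large divisors with `w` -/
lemma fibre' {l : ℝ} (hl : 0 ≤ l) {N J w : ℕ} (hN : 1 ≤ N) (hw : 1 ≤ w) (U : Finset ℕ)
    (h1 : ∀ u ∈ U, Squarefree u ∧ u ≤ N) (h3 : ∀ u ∈ U, u.primeFactors.card ≤ J)
    (h4 : ∀ u ∈ U, ∀ p ∈ u.primeFactors, (p : ℝ) ^ (1 - l) ≤ (Nat.gcd w (p - 1) : ℝ)) :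
    (U.card : ℝ) ≤ (N : ℝ) ^ l * (1 + w.divisors.card * (1 + Real.log N)) ^ J := by
  obtain ⟨D, hD⟩ : ∃ D, D = U.biUnion Nat.primeFactors := ⟨_, rfl⟩
  have hDm : ∀ p ∈ D, p.Prime ∧ p ≤ N ∧ (p : ℝ) ^ (1 - l) ≤ (Nat.gcd w (p - 1) : ℝ) := by
    intro p hp
    rw [hD, mem_biUnion] at hp
    obtain ⟨u, hu, hpu⟩ := hp
    have hu0 : 0 < u := Nat.pos_of_ne_zero (h1 u hu).1.ne_zero
    exact ⟨Nat.prime_of_mem_primeFactors hpu, (Nat.le_of_dvd hu0 (Nat.dvd_of_mem_primeFactors hpu)).trans (h1 u hu).2,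
      h4 u hu p hpu⟩
  have hN0 : (0 : ℝ) < N := by exact_mod_cast hN
  have hinj : Set.InjOn (fun u : ℕ => u.primeFactors) (U : Set ℕ) := by
    intro u hu v hv huv
    rw [mem_coe] at hu hv
    simp only at huv
    rw [← Nat.prod_primeFactors_of_squarefree (h1 u hu).1, ← Nat.prod_primeFactors_of_squarefree (h1 v hv).1, huv]
  have k1 : (U.card : ℝ) ≤ ∑ u ∈ U, (N : ℝ) ^ l * ∏ p ∈ u.primeFactors, (p : ℝ) ^ (-l) := by
    rw [card_eq_sum_ones, Nat.cast_sum]
    apply sum_le_sum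
    intro u hu
    have hu0 : 0 < u := Nat.pos_of_ne_zero (h1 u hu).1.ne_zero
    have hu0' : (0 : ℝ) < u := by exact_mod_cast hu0
    have e1 : ∏ p ∈ u.primeFactors, (p : ℝ) ^ (-l) = (u : ℝ) ^ (-l) := by
      rw [Real.finsetProd_rpow _ _ (fun i _ => Nat.cast_nonneg i), ← Nat.cast_prod,
        Nat.prod_primeFactors_of_squarefree (h1 u hu).1]
    rw [e1, Real.rpow_neg hu0'.le, ← div_eq_mul_inv, Nat.cast_one, le_div_iff₀ (Real.rpow_pos_of_pos hu0' _), one_mul]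
    exact Real.rpow_le_rpow hu0'.le (by exact_mod_cast (h1 u hu).2) hl
  rw [← mul_sum] at k1
  refine k1.trans (mul_le_mul_of_nonneg_left ?_ (by positivity))
  have k2 : ∑ u ∈ U, ∏ p ∈ u.primeFactors, (p : ℝ) ^ (-l) ≤
      ∑ S ∈ D.powerset, (if S.card ≤ J then ∏ p ∈ S, (p : ℝ) ^ (-l) else 0) := by
    rw [← sum_image (f := fun S : Finset ℕ => ∏ p ∈ S, (p : ℝ) ^ (-l)) hinj, ← sum_filter]
    apply sum_le_sum_of_subset_of_nonneg
    · intro S hS
      rw [mem_image] at hS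
      obtain ⟨u, hu, rfl⟩ := hS
      rw [mem_filter, mem_powerset]
      refine ⟨?_, h3 u hu⟩
      intro p hp
      rw [hD, mem_biUnion]
      exact ⟨u, hu, hp⟩
    · intro S _ _
      positivity
  refine k2.trans ((subsets_sum _ D (fun p _ => by positivity) J).trans ?_)
  apply pow_le_pow_left₀
  · have : 0 ≤ ∑ p ∈ D, (p : ℝ) ^ (-l) := sum_nonneg fun p _ => by positivity
    linarith
  · have := primes_sum hN hw D hDm
    linarith

end Pool.Agent.Zk73.OR
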